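import Pool.Agent.E8helper64.GC.Stm

set_option autoImplicit false

namespace Pool.Agent.E8helper87.GC

open MvPolynomial
open Pool.Agent.E8helper64.GC

universe u

variable {K : Type u} [Field K]

theorem lin_repr {l : MvPolynomial (Fin 10) K} (hl : l.IsHomogeneous 1) :
    l = ∑ i, C (coeff (Finsupp.single i 1) l) * X i := by
  have h1 : l ∈ homogeneousSubmodule (Fin 10) K 1 := hl
  rw [homogeneousSubmodule_one_eq_span_X, Submodule.mem_span_range_iff_exists_fun] at h1
  obtain ⟨c, rfl⟩ := h1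
  refine Finset.sum_congr rfl fun i _ => ?_
  rw [smul_eq_C_mul]
  congr 2
  rw [coeff_sum, Finset.sum_eq_single i]
  · rw [coeff_smul, coeff_X]
    simp
  · intro j _ hj
    rw [coeff_smul]
    have : Finsupp.single j 1 ≠ Finsupp.single i (1 : ℕ) := by
      intro h
      exact hj ((Finsupp.single_left_inj one_ne_zero).1 h)
    simp [coeff_X, this]
  · intro h
    exact absurd (Finset.mem_univ i) h

/-- the test homomorphism -/
noncomputable def phi (K : Type u) [Field K] : MvPolynomial (Fin 10) K →ₐ[K] Polynomial K :=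
  aeval ![1, 1, 1, 1, 1, 1, Polynomial.X, 0, 0, Polynomial.X]

/-- the parametrisations of the three spaces -/
def pr (K : Type u) [Field K] (i : Fin 3) (y : Fin 10 → K) : Fin 10 → K :=
  if i = 0 then ![y 0, y 1, y 2, y 3, y 4, y 5, y 6, 0, y 8, 0] else
  if i = 1 then ![y 0, y 1, y 2, y 3, y 4, y 5, 0, y 7, 0, y 9] else
  ![y 0, y 1, y 2, y 3, y 4, y 5, y 6, y 6, y 8, y 8]

noncomputable def sg (K : Type u) [Field K] (i : Fin 3) :
    MvPolynomial (Fin 10) K →ₐ[K] MvPolynomial (Fin 10) K :=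
  aeval (if i = 0 then ![X 0, X 1, X 2, X 3, X 4, X 5, X 6, 0, X 8, 0] else
    if i = 1 then ![X 0, X 1, X 2, X 3, X 4, X 5, 0, X 7, 0, X 9] else
    ![X 0, X 1, X 2, X 3, X 4, X 5, X 6, X 6, X 8, X 8])

theorem pr_mem (i : Fin 3) (y : Fin 10 → K) : pr K i y ∈ Dt K i := by
  fin_cases i <;> simp [pr, Dt]

theorem eval_sg (i : Fin 3) (y : Fin 10 → K) (p : MvPolynomial (Fin 10) K) :
    eval y (sg K i p) = eval (pr K i y) p := by
  induction p using MvPolynomial.induction_on with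
  | C a => simp [sg]
  | add p q hp hq => rw [map_add, map_add, map_add, hp, hq]
  | mul_X p j hp =>
    rw [map_mul, map_mul, map_mul, hp]
    congr 1
    rw [sg, aeval_X, eval_X]
    fin_cases i <;> fin_cases j <;> simp [pr]

theorem exists_lin [Infinite K] (i : Fin 3) (s : Multiset (MvPolynomial (Fin 10) K))
    (h : ∀ x ∈ Dt K i, eval x s.prod = 0) : ∃ l ∈ s, ∀ y, eval (pr K i y) l = 0 := by
  have h1 : sg K i s.prod = 0 := by
    apply MvPolynomial.funext
    intro y
    rw [eval_sg, map_zero]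
    exact h _ (pr_mem i y)
  rw [map_multiset_prod, Multiset.prod_eq_zero_iff, Multiset.mem_map] at h1
  obtain ⟨l, hl, hl2⟩ := h1
  exact ⟨l, hl, fun y => by rw [← eval_sg, hl2, map_zero]⟩

theorem lin_eval {l : MvPolynomial (Fin 10) K} (hl : l.IsHomogeneous 1) (x : Fin 10 → K) :
    eval x l = ∑ i, coeff (Finsupp.single i 1) l * x i := by
  conv_lhs => rw [lin_repr hl]
  simp

/-- the coefficients of the linear forms which vanish on one of the three spaces -/
theorem coeffs (i : Fin 3) {l : MvPolynomial (Fin 10) K} (hl : l.IsHomogeneous 1)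
    (h : ∀ y, eval (pr K i y) l = 0) :
    (∀ j : Fin 10, j.1 < 6 → coeff (Finsupp.single j 1) l = 0) ∧
    (i = 0 → coeff (Finsupp.single 6 1) l = 0 ∧ coeff (Finsupp.single 8 1) l = 0) ∧
    (i = 1 → coeff (Finsupp.single 7 1) l = 0 ∧ coeff (Finsupp.single 9 1) l = 0) ∧
    (i = 2 → coeff (Finsupp.single 6 1) l + coeff (Finsupp.single 7 1) l = 0 ∧
      coeff (Finsupp.single 8 1) l + coeff (Finsupp.single 9 1) l = 0) := by
  have h2 : ∀ k : Fin 10, ∑ j, coeff (Finsupp.single j 1) l * (pr K i (Pi.single k 1)) j = 0 := by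
    intro k
    rw [← lin_eval hl, h]
  refine ⟨?_, ?_, ?_, ?_⟩
  · intro j hj
    have h3 := h2 j
    simp only [Fin.sum_univ_succ, Fin.sum_univ_zero] at h3
    fin_cases i <;> fin_cases j <;> simp [pr] at h3 hj ⊢ <;> exact h3
  all_goals
    intro hi
    subst hi
    have h6 := h2 6
    have h7 := h2 7
    have h8 := h2 8
    have h9 := h2 9
    simp only [Fin.sum_univ_succ, Fin.sum_univ_zero] at h6 h7 h8 h9
    simp [pr] at h6 h7 h8 h9
    tauto

theorem phi_dvd {l : MvPolynomial (Fin 10) K} (hl : l.IsHomogeneous 1)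
    (h : ∀ j : Fin 10, j.1 < 6 → coeff (Finsupp.single j 1) l = 0) :
    (Polynomial.X : Polynomial K) ∣ phi K l := by
  rw [lin_repr hl, map_sum]
  refine Finset.dvd_sum fun j _ => ?_
  by_cases hj : j.1 < 6
  · rw [h j hj]
    simp
  · rw [map_mul]
    apply Dvd.dvd.mul_left
    rw [phi, aeval_X]
    fin_cases j <;> simp at hj ⊢

theorem lin_ext {l : MvPolynomial (Fin 10) K} (hl : l.IsHomogeneous 1)
    (h : ∀ j : Fin 10, j.1 < 6 → coeff (Finsupp.single j 1) l = 0)
    (h6 : coeff (Finsupp.single 6 1) l = 0) (h7 : coeff (Finsupp.single 7 1) l = 0)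
    (h8 : coeff (Finsupp.single 8 1) l = 0) (h9 : coeff (Finsupp.single 9 1) l = 0) : l = 0 := by
  rw [lin_repr hl]
  refine Finset.sum_eq_zero fun j _ => ?_
  have : coeff (Finsupp.single j 1) l = 0 := by
    by_cases hj : j.1 < 6
    · exact h j hj
    · fin_cases j <;> simp at hj
      · exact h6
      · exact h7
      · exact h8
      · exact h9
  rw [this, map_zero, zero_mul]

theorem key [Infinite K] (s : Multiset (MvPolynomial (Fin 10) K)) (hs : ∀ l ∈ s, l.IsHomogeneous 1)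
    (h : ∀ i, ∀ x ∈ Dt K i, eval x s.prod = 0) : (Polynomial.X : Polynomial K) ^ 3 ∣ phi K s.prod := by
  obtain ⟨l0, h0, h0'⟩ := exists_lin 0 s (h 0)
  obtain ⟨l1, h1, h1'⟩ := exists_lin 1 s (h 1)
  obtain ⟨l2, h2, h2'⟩ := exists_lin 2 s (h 2)
  obtain ⟨a0, b0, -, -⟩ := coeffs 0 (hs _ h0) h0'
  obtain ⟨a1, -, b1, -⟩ := coeffs 1 (hs _ h1) h1'
  obtain ⟨a2, -, -, b2⟩ := coeffs 2 (hs _ h2) h2'
  obtain ⟨c0, d0⟩ := b0 rfl
  obtain ⟨c1, d1⟩ := b1 rfl
  obtain ⟨c2, d2⟩ := b2 rfl
  have hzero : ∀ l ∈ s, l = 0 → (Polynomial.X : Polynomial K) ^ 3 ∣ phi K s.prod := by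
    intro l hl hl0
    have : s.prod = 0 := Multiset.prod_eq_zero (hl0 ▸ hl)
    rw [this, map_zero]
    exact dvd_zero _
  by_cases e01 : l1 = l0
  · subst e01
    exact hzero l1 h1 (lin_ext (hs _ h1) a1 c0 c1 d0 d1)
  by_cases e02 : l2 = l0
  · subst e02
    refine hzero l2 h2 (lin_ext (hs _ h2) a2 c0 ?_ d0 ?_)
    · rwa [c0, zero_add] at c2
    · rwa [d0, zero_add] at d2
  by_cases e12 : l2 = l1
  · subst e12
    refine hzero l2 h2 (lin_ext (hs _ h2) a2 ?_ c1 ?_ d1)
    · rwa [c1, add_zero] at c2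
    · rwa [d1, add_zero] at d2
  obtain ⟨s1, rfl⟩ := Multiset.exists_cons_of_mem h0
  have h1s : l1 ∈ s1 := by
    rcases Multiset.mem_cons.1 h1 with h | h
    · exact absurd h e01
    · exact h
  obtain ⟨s2, rfl⟩ := Multiset.exists_cons_of_mem h1s
  have h2s : l2 ∈ s2 := by
    rcases Multiset.mem_cons.1 h2 with h | h
    · exact absurd h e02
    · rcases Multiset.mem_cons.1 h with h | h
      · exact absurd h e12
      · exact h
  obtain ⟨s3, rfl⟩ := Multiset.exists_cons_of_mem h2s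
  rw [Multiset.prod_cons, Multiset.prod_cons, Multiset.prod_cons, map_mul, map_mul, map_mul]
  have t0 := phi_dvd (hs _ h0) a0
  have t1 := phi_dvd (hs _ h1) a1
  have t2 := phi_dvd (hs _ h2) a2
  have := mul_dvd_mul t0 (mul_dvd_mul t1 (t2.mul_right (phi K s3.prod)))
  have e : (Polynomial.X : Polynomial K) ^ 3 = Polynomial.X * (Polynomial.X * Polynomial.X) := by ring
  rw [e]
  exact this

theorem phi_Ft : phi K (Ft K) = Polynomial.X ^ 2 := by
  simp only [Ft, map_mul, map_sub, phi, aeval_X]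
  simp
  ring

/-- Piece ALG. -/
theorem t_ALG : S_ALG.{u} := by
  intro K _ _ T hT hv hF
  have h1 : Ideal.span T ≤ (Ideal.span {(Polynomial.X : Polynomial K) ^ 3}).comap (phi K) := by
    rw [Ideal.span_le]
    intro p hp
    obtain ⟨s, hs, rfl⟩ := hT p hp
    change phi K s.prod ∈ Ideal.span {(Polynomial.X : Polynomial K) ^ 3}
    rw [Ideal.mem_span_singleton]
    exact key s hs (hv _ hp)
  have h2 := h1 hF
  change phi K (Ft K) ∈ Ideal.span {(Polynomial.X : Polynomial K) ^ 3} at h2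
  rw [Ideal.mem_span_singleton, phi_Ft, Polynomial.X_pow_dvd_iff] at h2
  have h3 := h2 2 (by norm_num)
  simp at h3

end Pool.Agent.E8helper87.GC
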